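import Pool.Agent.H2N.SO.Level

/-!
# Orthogonal families of rank three: finitely many `L`-functions at one point

`K` is any number field, for example `K = ℚ`, and `V` an orthogonal family of rank three and determinant
one, of weight zero: at almost all primes `v` the eigenvalues of Frobenius are `1`, `e^{iθ_v}`, `e^{-iθ_v}`.
Examples are, after a quadratic twist, the parts of rank three of `H^i(X)(i / 2)`, `i` even, with a
symmetric pairing, such as the transcendental part of `H²(X)(1)` of a K3 surface `X` with Picard number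
`19`.  If the Sato-Tate group of `V` is `SO(3)`, its irreducible representations are the `V_k` of dimension
`2 k + 1`, with the trace `1 + 2 cos θ + ... + 2 cos kθ` at a rotation by `θ`; by Serre the Sato-Tate law for
the `θ_v` follows, if all `L(V_k, s)`, `k ≥ 1`, have no zeros and no poles on the line `Re s = 1`.  Nothing is
assumed here about automorphy.  The theorem uses only finitely many `V_k`, only one or two points of the
line, and only that there are no poles there.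

The definitions are in `Pool.Agent.H2N.SO.Defs`, `Pool.Agent.H2N.ST.Defs` and `Pool.Agent.W353.EH.Defs`:
`trace k φ`: the trace of a rotation by `φ` on `V_k`; `IsRankThree θ k τ B`: the `B v` are the Euler factors
of `L(V_k, s)` (arbitrary ones, regular at `1 + i τ`, at finitely many primes); `HasOrder 0 τ B m`: the
Euler product has a meromorphic continuation to a neighbourhood of `1 + i τ`, of order `m` at this point;
`size 0 τ B ε`: `log |L(1 + i τ + ε)| / log (1 / ε)`; `DirichletMean φ A`: the average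
`∑ φ(v) q_v^{-1-ε} / ∑ q_v^{-1-ε}` tends to `A`.
-/

set_option autoImplicit false

namespace Pool.Agent.Results.MP_32ceeb_nt.RankThreeFiniteLevel

open NumberField IsDedekindDomain Filter Topology Polynomial
open Pool.Agent.W353.EH (size HasOrder)
open Pool.Agent.H2N.SO (IsRankThree trace)
open Pool.Agent.H2N.ST (DirichletMean)

/-- Let `V` be an orthogonal family of rank three over `K` with the angles `θ_v`.
* (1) Let `c₀ + ∑ c_k trace k φ ≥ 0` for all `φ`, and `1 + ∑ e_h cos(τ_h u) ≥ 0` for all real `u`, with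
  finitely many `k ≥ 0` and `τ_h ≠ 0`.  Then `∑ c_k (m_k(0) + ∑ e_h m_k(τ_h)) ≤ c₀` for the orders `m_k(τ)` of
  the `L(V_k, s)` at `1 + i τ`; without any continuation the same holds for the sizes.
* (2) Let `j ≥ 1`.  If the `L(V_k, s)`, `1 ≤ k ≤ 2 j`, have meromorphic continuations to neighbourhoods of
  `s = 1`, without poles there, then `L(V_j, s)` does not vanish at `s = 1`.
* (3) If, moreover, the same holds at `1 + i τ` for one `τ ≠ 0`, then `L(V_j, s)` does not vanish at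
  `1 + i τ`.
* (4) If the `L(V_k, s)`, `1 ≤ k ≤ 2 R`, have meromorphic continuations to neighbourhoods of `s = 1`,
  without poles there, then the Dirichlet average of `∑_{k ≤ R} a_k trace k θ_v` exists and is equal to the
  mean value `a_0` on `SO(3)`: the traces have the Sato-Tate moments up to the order `R`. -/
theorem result (K : Type) [Field K] [NumberField K] (θ : HeightOneSpectrum (𝓞 K) → ℝ) :
    (∀ (S : Finset ℕ) (c : ℕ → ℝ) (c₀ : ℝ),
      (∀ φ : ℝ, 0 ≤ c₀ + ∑ k ∈ S, c k * trace k φ) →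
      ∀ (κ : Type) (H : Finset κ) (e τ : κ → ℝ), (∀ h ∈ H, τ h ≠ 0) →
        (∀ u : ℝ, 0 ≤ 1 + ∑ h ∈ H, e h * Real.cos (τ h * u)) →
        ∀ (B₀ : ℕ → HeightOneSpectrum (𝓞 K) → ℂ[X]) (B : ℕ → κ → HeightOneSpectrum (𝓞 K) → ℂ[X]),
          (∀ k ∈ S, IsRankThree θ k 0 (B₀ k)) →
          (∀ k ∈ S, ∀ h ∈ H, IsRankThree θ k (τ h) (B k h)) →
          (∀ η : ℝ, 0 < η → ∀ᶠ ε : ℝ in 𝓝[>] 0, -η ≤ c₀ + ∑ k ∈ S, c k *
            (size 0 0 (B₀ k) ε + ∑ h ∈ H, e h * size 0 (τ h) (B k h) ε)) ∧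
          ∀ (m₀ : ℕ → ℤ) (m : ℕ → κ → ℤ), (∀ k ∈ S, HasOrder 0 0 (B₀ k) (m₀ k)) →
            (∀ k ∈ S, ∀ h ∈ H, HasOrder 0 (τ h) (B k h) (m k h)) →
            ∑ k ∈ S, c k * (m₀ k + ∑ h ∈ H, e h * m k h) ≤ c₀) ∧
    (∀ j : ℕ, 1 ≤ j → ∀ (B₀ : ℕ → HeightOneSpectrum (𝓞 K) → ℂ[X]) (m₀ : ℕ → ℤ),
      (∀ k, 1 ≤ k → k ≤ 2 * j →
        IsRankThree θ k 0 (B₀ k) ∧ HasOrder 0 0 (B₀ k) (m₀ k) ∧ 0 ≤ m₀ k) →
      m₀ j = 0 ∧
      ∀ (τ : ℝ) (B : ℕ → HeightOneSpectrum (𝓞 K) → ℂ[X]) (m : ℕ → ℤ), τ ≠ 0 →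
        (∀ k, 1 ≤ k → k ≤ 2 * j →
          IsRankThree θ k τ (B k) ∧ HasOrder 0 τ (B k) (m k) ∧ 0 ≤ m k) →
        m j = 0) ∧
    ∀ (R : ℕ) (B₀ : ℕ → HeightOneSpectrum (𝓞 K) → ℂ[X]) (m₀ : ℕ → ℤ),
      (∀ k, 1 ≤ k → k ≤ 2 * R →
        IsRankThree θ k 0 (B₀ k) ∧ HasOrder 0 0 (B₀ k) (m₀ k) ∧ 0 ≤ m₀ k) →
      ∀ a : ℕ → ℝ, DirichletMean (fun v => ∑ k ∈ Finset.range (R + 1), a k * trace k (θ v))
        (a 0) := by
  refine ⟨fun S c c₀ hP κ H e τ hτ hT B₀ B hB₀ hB => ?_, fun j hj B₀ m₀ h₀ => ⟨?_, ?_⟩,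
    fun R B₀ m₀ h₀ a => ?_⟩
  · obtain ⟨h1, h2⟩ := Pool.Agent.H2N.SO.positivity θ S c c₀ hP H e τ hτ hT B₀ hB₀ B hB
    refine ⟨h1, fun m₀ m hm₀ hm => ?_⟩
    have := h2 m₀ m hm₀ hm
    linarith
  · exact Pool.Agent.H2N.SO.level_zero θ hj B₀
      (fun k hk => (h₀ k (Finset.mem_Icc.1 hk).1 (Finset.mem_Icc.1 hk).2).1) m₀
      (fun k hk => (h₀ k (Finset.mem_Icc.1 hk).1 (Finset.mem_Icc.1 hk).2).2)
  · intro τ B m hτ h
    exact Pool.Agent.H2N.SO.level_height θ hj hτ B₀ B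
      (fun k hk => (h₀ k (Finset.mem_Icc.1 hk).1 (Finset.mem_Icc.1 hk).2).1)
      (fun k hk => (h k (Finset.mem_Icc.1 hk).1 (Finset.mem_Icc.1 hk).2).1) m₀ m
      (fun k hk => (h₀ k (Finset.mem_Icc.1 hk).1 (Finset.mem_Icc.1 hk).2).2)
      (fun k hk => (h k (Finset.mem_Icc.1 hk).1 (Finset.mem_Icc.1 hk).2).2)
  · exact Pool.Agent.H2N.SO.level_mean θ B₀
      (fun k hk => (h₀ k (Finset.mem_Icc.1 hk).1 (Finset.mem_Icc.1 hk).2).1) m₀
      (fun k hk => (h₀ k (Finset.mem_Icc.1 hk).1 (Finset.mem_Icc.1 hk).2).2) a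

end Pool.Agent.Results.MP_32ceeb_nt.RankThreeFiniteLevel
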