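import Pool.Agent.Results.MP_32ceeb_nt.VarietiesInWindows

/-!
# Families of varieties: the zeta functions at the primes `p ≤ x` for ALL members in small residue classes

The notation is that of `VarietiesInWindows`. Let `q` be a prime, `σ > 0` and `0 ≤ s < 1`. For all `q`-adic integers `α`
outside a set of Hausdorff dimension at most `s / σ` the law for the zeta functions of `X_n` modulo the primes `p ≤ x` holds
for ALL systems `F`, all `k`, ALL integers `1 ≤ n ≤ Y` with `|n - α|_q ≤ Y ^ (-σ)`, `Y` large, and all `x` between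
`n ^ (1 - s)` and `n ^ s`.
-/

set_option autoImplicit false

namespace Pool.Agent.Results.MP_32ceeb_nt.VarietiesInResidueClasses

open Finset Polynomial
open Pool.Agent.V1176.LN (solutions)
open Pool.Agent.Results.MP_32ceeb_nt.VarietiesInWindows (count model step enum)

/-- `P n x` holds for all large `Y`, ALL integers `1 ≤ n ≤ Y` with `|n - α|_q ≤ Y ^ (-σ)` and ALL `x` between
`n ^ (1 - s)` and `n ^ s`. -/
def InClasses (q : ℕ) [Fact q.Prime] (σ s : ℝ) (α : ℤ_[q]) (P : ℕ → ℕ → Prop) : Prop :=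
  ∃ Y₀ : ℝ, ∀ Y : ℝ, Y₀ ≤ Y → ∀ n : ℕ, 1 ≤ n → (n : ℝ) ≤ Y → ‖(n : ℤ_[q]) - α‖ ≤ Y ^ (-σ) →
    ∀ x : ℕ, (n : ℝ) ^ (1 - s) ≤ x → (x : ℝ) ≤ (n : ℝ) ^ s → P n x

/-- **The zeta functions of the members of families of varieties in small residue classes.** -/
theorem result (q : ℕ) [Fact q.Prime] (σ s : ℝ) (hσ : 0 < σ) (hs0 : 0 ≤ s) (hs1 : s < 1)
    (I : ℕ → ℕ → Set (ℕ → ℕ)) :
    ∃ E : Set ℤ_[q], dimH E ≤ ENNReal.ofReal (s / σ) ∧ ∀ α : ℤ_[q], α ∉ E →
      ∀ (m : ℕ) (F : Finset (MvPolynomial (Fin m) ℤ[X])) (k : ℕ) (ε : ℝ), 0 < ε →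
        InClasses q σ s α (fun n x =>
          |(count F (I k) n x : ℝ) - model F (I k) x| ≤ ε * Nat.primeCounting x) := by
  obtain ⟨e, he⟩ := enum
  obtain ⟨E, hE, h⟩ := Pool.Agent.V1176.LN.cls_sets q
    (fun k => Pool.Agent.V1176.LN.SS (e k).1.2 (I (e k).2)) hs0 hs1 hσ
  refine ⟨E, hE, fun α hαE m F k ε hε => ?_⟩
  obtain ⟨j, hj⟩ := he (⟨m, F⟩, k)
  obtain ⟨Y₀, h0⟩ := h α hαE j ε hε
  refine ⟨Y₀, fun Y hY n hn hnY hw x hx1 hx2 => ?_⟩
  exact step I hj (h0 Y hY n hn hnY hw x hx1 hx2)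

end Pool.Agent.Results.MP_32ceeb_nt.VarietiesInResidueClasses
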