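import Pool.Agent.V1176.LN.Var

/-!
# Families of varieties: the zeta functions at the primes `p ≤ x` for ALL members in windows

A system `F` of finitely many polynomials in `m` variables with coefficients in `ℤ[T]` defines for every integer `n` an
affine variety `X_n` over `ℤ` (for homogeneous `F` the cone over a projective variety), by `T = n`. The law says: the
number of the primes `p ≤ x` for which the sequence of the numbers of the points of `X_n` over the fields with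
`p, p², p³, …` elements is in a prescribed set `I_k(p)` is up to `ε π(x)` the sum over `p ≤ x` of the proportion of the
residues `r` modulo `p` for which `X_r` has this property.

Let `v_ν ≥ 1` be a sequence of exponent of convergence at most `τ`, `ϑ < 1` and `0 ≤ s < 1`. For all `α > 0` outside a set
of Hausdorff dimension at most `(s + τ) / (1 - ϑ)` the law holds for ALL systems `F`, all `k`, ALL integers `n` with
`|n - α v_ν| ≤ v_ν ^ ϑ`, `ν` large, and all `x` between `n ^ (1 - s)` and `n ^ s`.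
-/

set_option autoImplicit false

namespace Pool.Agent.Results.MP_32ceeb_nt.VarietiesInWindows

open Finset Polynomial
open Pool.Agent.V1176.LN (solutions)

/-- the exponent of convergence of the sequence `v` is at most `τ` -/
def ExpLe (v : ℕ → ℝ) (τ : ℝ) : Prop := ∀ t : ℝ, τ < t → Summable (fun n : ℕ => (v n) ^ (-t))

open Classical in
/-- The number of the primes `p ≤ x` for which the sequence of the numbers of the solutions of `F = 0`, `T = n`, over the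
fields with `p`, `p ^ 2`, `p ^ 3`, … elements is in the set `I p`. -/
noncomputable def count {m : ℕ} (F : Finset (MvPolynomial (Fin m) ℤ[X])) (I : ℕ → Set (ℕ → ℕ)) (n : ℤ) (x : ℕ) : ℕ :=
  ((range (x + 1)).filter (fun p : ℕ => ∃ _ : Fact p.Prime, solutions F n p ∈ I p)).card

open Classical in
/-- The expected number: the sum over the primes `p ≤ x` of the proportion of the residues `r` modulo `p` for which the
sequence of the numbers of the solutions of `F = 0`, `T = r`, is in the set `I p`. -/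
noncomputable def model {m : ℕ} (F : Finset (MvPolynomial (Fin m) ℤ[X])) (I : ℕ → Set (ℕ → ℕ)) (x : ℕ) : ℝ :=
  ∑ p ∈ (range (x + 1)).filter Nat.Prime,
    (((range p).filter (fun r : ℕ => ∃ _ : Fact p.Prime, solutions F (r : ℤ) p ∈ I p)).card : ℝ) / p

/-- `P n x` holds for all large `ν`, ALL integers `n ≥ 1` with `|n - α v_ν| ≤ v_ν ^ ϑ` and ALL `x` between
`n ^ (1 - s)` and `n ^ s`. -/
def InWindows (v : ℕ → ℝ) (ϑ s α : ℝ) (P : ℕ → ℕ → Prop) : Prop :=
  ∃ ν₀ : ℕ, ∀ ν : ℕ, ν₀ ≤ ν → ∀ n : ℕ, 1 ≤ n → |(n : ℝ) - α * v ν| ≤ (v ν) ^ ϑ →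
    ∀ x : ℕ, (n : ℝ) ^ (1 - s) ≤ x → (x : ℝ) ≤ (n : ℝ) ^ s → P n x

/-! ### The proof -/

lemma mem_iff {m : ℕ} (F : Finset (MvPolynomial (Fin m) ℤ[X])) (I : ℕ → Set (ℕ → ℕ)) (p : ℕ) (n : ℤ) :
    (n : ZMod p) ∈ Pool.Agent.V1176.LN.SS F I p ↔ ∃ _ : Fact p.Prime, solutions F n p ∈ I p := by
  constructor
  · rintro ⟨h, h1⟩
    exact ⟨h, h1 n rfl⟩
  · rintro ⟨h, h1⟩
    exact (Pool.Agent.V1176.LN.mem_SS F I p n).2 h1

lemma cnt_eq {m : ℕ} (F : Finset (MvPolynomial (Fin m) ℤ[X])) (I : ℕ → Set (ℕ → ℕ)) (n : ℤ) (x : ℕ) :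
    Pool.Agent.V1176.LN.cnt (Pool.Agent.V1176.LN.SS F I) n x = count F I n x := by
  classical
  unfold Pool.Agent.V1176.LN.cnt count
  congr 1
  refine filter_congr fun p _ => ?_
  rw [mem_iff]
  exact ⟨fun h => h.2, fun h => ⟨h.1.out, h⟩⟩

lemma mdl_eq {m : ℕ} (F : Finset (MvPolynomial (Fin m) ℤ[X])) (I : ℕ → Set (ℕ → ℕ)) (x : ℕ) :
    Pool.Agent.V1176.LN.mdl (Pool.Agent.V1176.LN.SS F I) x = model F I x := by
  classical
  unfold Pool.Agent.V1176.LN.mdl model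
  refine sum_congr rfl fun p _ => ?_
  congr 2
  apply congrArg
  refine filter_congr fun r _ => ?_
  rw [← mem_iff, Int.cast_natCast]

/-- an enumeration of the systems and the test sets -/
lemma enum : ∃ e : ℕ → (Σ m : ℕ, Finset (MvPolynomial (Fin m) ℤ[X])) × ℕ, Function.Surjective e := by
  have h0 : ∀ m : ℕ, Countable (MvPolynomial (Fin m) ℤ[X]) := Pool.Agent.V1176.LN.countable_mv
  have : Nonempty ((Σ m : ℕ, Finset (MvPolynomial (Fin m) ℤ[X])) × ℕ) := ⟨⟨⟨0, ∅⟩, 0⟩⟩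
  exact exists_surjective_nat _

lemma step (I : ℕ → ℕ → Set (ℕ → ℕ)) {z : (Σ m : ℕ, Finset (MvPolynomial (Fin m) ℤ[X])) × ℕ} {m : ℕ}
    {F : Finset (MvPolynomial (Fin m) ℤ[X])} {k : ℕ} (hz : z = (⟨m, F⟩, k)) {n : ℤ} {x : ℕ} {B : ℝ}
    (h : |(Pool.Agent.V1176.LN.cnt (Pool.Agent.V1176.LN.SS z.1.2 (I z.2)) n x : ℝ) -
      Pool.Agent.V1176.LN.mdl (Pool.Agent.V1176.LN.SS z.1.2 (I z.2)) x| ≤ B) :
    |(count F (I k) n x : ℝ) - model F (I k) x| ≤ B := by
  subst hz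
  rw [cnt_eq, mdl_eq] at h
  exact h

/-- **The zeta functions of the members of families of varieties in windows.** -/
theorem result :
    (∀ (v : ℕ → ℝ) (τ ϑ s : ℝ), (∀ ν, 1 ≤ v ν) → 0 ≤ τ → ExpLe v τ → ϑ < 1 → 0 ≤ s → s < 1 →
      ∀ I : ℕ → ℕ → Set (ℕ → ℕ),
      ∃ E : Set ℝ, dimH E ≤ ENNReal.ofReal ((s + τ) / (1 - ϑ)) ∧ ∀ α : ℝ, 0 < α → α ∉ E →
        ∀ (m : ℕ) (F : Finset (MvPolynomial (Fin m) ℤ[X])) (k : ℕ) (ε : ℝ), 0 < ε →
          InWindows v ϑ s α (fun n x =>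
            |(count F (I k) n x : ℝ) - model F (I k) x| ≤ ε * Nat.primeCounting x)) ∧
    (∀ a : ℝ, 0 < a → ExpLe (fun n : ℕ => ((n : ℝ) + 1) ^ a) (1 / a)) ∧
    (∀ b : ℝ, 1 < b → ExpLe (fun n : ℕ => b ^ n) 0) := by
  refine ⟨?_, fun κ hκ => Pool.Agent.Y854.GM.expLe_pow κ hκ,
    fun b hb => Pool.Agent.Y854.GM.expLe_geom b hb⟩
  intro v τ ϑ s hv hτ hvτ hϑ hs0 hs1 I
  obtain ⟨e, he⟩ := enum
  obtain ⟨E, hE, h⟩ := Pool.Agent.V1176.LN.win_sets
    (fun k => Pool.Agent.V1176.LN.SS (e k).1.2 (I (e k).2)) hv hτ hvτ hs0 hs1 hϑ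
  refine ⟨E, hE, fun α hα hαE m F k ε hε => ?_⟩
  obtain ⟨j, hj⟩ := he (⟨m, F⟩, k)
  obtain ⟨ν₀, h0⟩ := h α hα hαE j ε hε
  refine ⟨ν₀, fun ν hν n hn hw x hx1 hx2 => ?_⟩
  exact step I hj (h0 ν hν n hn hw x hx1 hx2)

end Pool.Agent.Results.MP_32ceeb_nt.VarietiesInWindows
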